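import Pool.Agent.W842.BV.Stms

/-!
# A sphere with many integer points
-/

set_option autoImplicit false

namespace Pool.Agent.W101.BV

open Finset
open Pool.Agent.W842.BV

lemma fiber_le (D m r : ℕ) :
    (univ.filter (fun v : Fin D → Fin m => ∑ i, (v i).val ^ 2 = r)).card ≤ (sph D r).card := by
  refine card_le_card_of_injOn (fun v i => ((v i).val : ℤ)) ?_ ?_
  · intro v hv
    simp only [coe_filter, mem_univ, true_and, Set.mem_ofPred_eq] at hv
    simp only [sph, coe_filter, Set.mem_ofPred_eq, Fintype.mem_piFinset, mem_Icc]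
    refine ⟨fun i => ⟨by omega, ?_⟩, ?_⟩
    · have h1 : (v i).val ^ 2 ≤ r := by
        rw [← hv]
        exact single_le_sum (f := fun i => (v i).val ^ 2) (fun _ _ => Nat.zero_le _) (mem_univ i)
      have h2 : (v i).val ≤ (v i).val ^ 2 := Nat.le_self_pow two_ne_zero _
      exact_mod_cast h2.trans h1
    · exact_mod_cast hv
  · intro v _ w _ h
    funext i
    have := congrFun h i
    simp only [Nat.cast_inj] at this
    exact Fin.ext this

theorem t_PIG : S_PIG := by
  intro D m hD hm
  have hpos : 0 < D * m ^ 2 := by positivity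
  by_contra hcon
  push Not at hcon
  have hmaps : ∀ v ∈ (univ : Finset (Fin D → Fin m)),
      ∑ i, (v i).val ^ 2 ∈ range (D * m ^ 2) := by
    intro v _
    rw [mem_range]
    calc ∑ i, (v i).val ^ 2 < ∑ _i : Fin D, m ^ 2 := by
          apply sum_lt_sum_of_nonempty
          · exact ⟨⟨0, hD⟩, mem_univ _⟩
          · intro i _
            exact Nat.pow_lt_pow_left (v i).isLt two_ne_zero
      _ = D * m ^ 2 := by simp
  have h1 := card_eq_sum_card_fiberwise hmaps
  have h2 : (univ : Finset (Fin D → Fin m)).card = m ^ D := by simp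
  have h3 : ∑ r ∈ range (D * m ^ 2), (D * m ^ 2 *
      (univ.filter (fun v : Fin D → Fin m => ∑ i, (v i).val ^ 2 = r)).card)
      < ∑ _r ∈ range (D * m ^ 2), m ^ D := by
    apply sum_lt_sum_of_nonempty
    · exact ⟨0, by simpa using hpos⟩
    · intro r hr
      rw [mem_range] at hr
      exact lt_of_le_of_lt (Nat.mul_le_mul_left _ (fiber_le D m r)) (hcon r hr.le)
  rw [← mul_sum, ← h1, h2, sum_const, card_range, smul_eq_mul] at h3
  exact lt_irrefl _ h3

end Pool.Agent.W101.BV
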